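import Mathlib
import Pool.Agent.R473.FP.AlgPieces

/-!
# Blocks of digits with relations whose size may grow with the position of the block
-/

set_option autoImplicit false

namespace Pool.Agent.Helper20.PD

open Finset Polynomial Module Pool.Agent.W472.AC Pool.Agent.R473.EC Pool.Agent.TH629.ExpDig
open Pool.Agent.R473.FP

/-- **Growing blocks**, from a measure -/
theorem grow_of_meas {n m : ℕ} (x : Fin n → ℝ) (E : Fin (m + 1) → Fin n → ℕ)
    (hE : Function.Injective E) (hdown : ∀ j, ∀ a : Fin n → ℕ, a ≤ E j → ∃ j', E j' = a)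
    (w c : ℝ) (hw : 0 ≤ w) (hc : 0 < c) (hx : Meas (fun j => ∏ i, Int.fract (x i) ^ E j i) w c) :
    ∃ A : ℝ, 1 ≤ A ∧ ∀ b : ℕ, 2 ≤ b → ∀ (K r : ℕ) (c' u v k : ℕ → ℕ), c' 0 = 0 →
      (∀ i < r, u i ≤ v i ∧ u i + k i ≤ K * (c' i + 1) ∧ c' (i + 1) ≤ v i + 1 ∧
        BlockRel b x E (u i) (v i) (k i)) →
      (c' r : ℝ) ≤ (A * (K + 1)) ^ r := by
  obtain ⟨A, hA, hblock⟩ := block x E hE hdown w c hw hc hx
  refine ⟨4 * A, by linarith, ?_⟩
  intro b hb K r c' u v k hc0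
  have hK0 : (0 : ℝ) ≤ K := Nat.cast_nonneg K
  obtain ⟨B, hB⟩ : ∃ B : ℝ, B = 4 * A * (K + 1) := ⟨_, rfl⟩
  have hAK : A ≤ A * (K + 1) := by nlinarith
  have hB4 : 4 ≤ B := by rw [hB]; nlinarith
  rw [← hB]
  -- `c' i + 1 ≤ B ^ i`
  have key : ∀ r, (∀ i < r, u i ≤ v i ∧ u i + k i ≤ K * (c' i + 1) ∧ c' (i + 1) ≤ v i + 1 ∧
        BlockRel b x E (u i) (v i) (k i)) → (c' r : ℝ) + 1 ≤ B ^ r := by
    intro r
    induction r with
    | zero =>
      intro _
      rw [hc0]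
      simp
    | succ r ih =>
      intro h
      have h1 := ih fun i hi => h i (by omega)
      obtain ⟨h2, h3, h4, h5⟩ := h r (by omega)
      have h6 := hblock b hb (u r) (v r) (k r) h2 h5
      have h7 : (u r : ℝ) + k r ≤ K * (c' r + 1) := by exact_mod_cast h3
      have h8 : (c' (r + 1) : ℝ) ≤ v r + 1 := by exact_mod_cast h4
      obtain ⟨T, hT⟩ : ∃ T : ℝ, T = (c' r : ℝ) + 1 := ⟨_, rfl⟩
      have hT1 : 1 ≤ T := by
        rw [hT]
        have : (0 : ℝ) ≤ c' r := Nat.cast_nonneg _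
        linarith
      rw [← hT] at h1 h7
      have h9 : (v r : ℝ) ≤ A * (K * T + 1) := by
        refine h6.trans (mul_le_mul_of_nonneg_left ?_ (by linarith))
        linarith
      have h10 : A * (K * T + 1) ≤ A * ((K + 1) * T) :=
        mul_le_mul_of_nonneg_left (by nlinarith) (by linarith)
      have h11 : 1 ≤ A * ((K + 1) * T) := by
        have : 1 ≤ (K + 1) * T := by nlinarith
        nlinarith
      calc (c' (r + 1) : ℝ) + 1 ≤ A * ((K + 1) * T) + 2 := by linarith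
        _ ≤ 3 * (A * ((K + 1) * T)) := by linarith
        _ ≤ B * T := by rw [hB]; nlinarith
        _ ≤ B * B ^ r := mul_le_mul_of_nonneg_left h1 (by linarith)
        _ = B ^ (r + 1) := by rw [pow_succ]; ring
  intro h
  have := key r h
  linarith

/-- **Growing blocks** for numbers algebraic over `ℚ(t)` -/
theorem grow_alg (t : ℝ) (ht : MeasR t) {n m : ℕ} (x : Fin n → ℝ)
    (hx : ∀ i, IsAlgebraic (IntermediateField.adjoin ℚ ({t} : Set ℝ)) (x i))
    (E : Fin (m + 1) → Fin n → ℕ)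
    (hdown : ∀ j, ∀ a : Fin n → ℕ, a ≤ E j → ∃ j', E j' = a)
    (hli : LinearIndependent ℚ fun j => ∏ i, x i ^ E j i) :
    ∃ A : ℝ, 1 ≤ A ∧ ∀ b : ℕ, 2 ≤ b → ∀ (K r : ℕ) (c' u v k : ℕ → ℕ), c' 0 = 0 →
      (∀ i < r, u i ≤ v i ∧ u i + k i ≤ K * (c' i + 1) ∧ c' (i + 1) ≤ v i + 1 ∧
        BlockRel b x E (u i) (v i) (k i)) →
      (c' r : ℝ) ≤ (A * (K + 1)) ^ r := by
  obtain ⟨w, c, hw, hc, h⟩ := meas_alg t ht (fun j => ∏ i, x i ^ E j i)
    (fun j => (IsIntegral.prod _ (fun i _ => (hx i).isIntegral.pow _)).isAlgebraic) hli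
  have hE : Function.Injective E := by
    intro j j' h
    apply hli.injective
    simp only [h]
  obtain ⟨c', hc', h'⟩ := meas_fract_mon x E hE hdown w c hc h
  exact grow_of_meas x E hE hdown w c' hw hc' h'

end Pool.Agent.Helper20.PD
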