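import Mathlib
import Pool.Agent.R473.PP.Fail

/-!
# Pushdown predictors, uniformly in the machine and in the alphabet

The number of failures of `d k = d (k + P)` is at most `C (wrong + 1)`, where `P` and `C` depend only
on the sets of states and of stack symbols, neither on the machine nor on the alphabet `Fin b`.
For this all machines are simulated by one program, which keeps the table of the moves of the
machine on correctly predicted terms in its state and writes its configuration (state and top
symbol) instead of the predicted term.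
-/

set_option autoImplicit false

namespace Pool.Agent.Helper20.PD

open Finset Filter Pool.Agent.W979.HS Pool.Agent.R473.PP

variable {Q Γ : Type}

/-- an action as a pair -/
def actCode : Act Γ → Fin 4 × Option Γ
  | .push g => (0, some g)
  | .swap g => (1, some g)
  | .pop => (2, none)
  | .stay => (3, none)

lemma actCode_inj : Function.Injective (actCode (Γ := Γ)) := by
  intro a a' h
  cases a <;> cases a' <;> simp_all [actCode]

instance [Finite Γ] : Finite (Act Γ) := Finite.of_injective actCode actCode_inj

/-- the moves on correctly predicted terms -/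
abbrev Tab (Q Γ : Type) : Type :=
  (Q → Option Γ → Option (Q × Act Γ)) × (Q → Option Γ → Q × Act Γ)

/-- the states of the universal program -/
abbrev US (Q Γ : Type) : Type := (Tab Q Γ × Q) × Option ((Q × Act Γ) × Bool)

/-- the universal program; `code` is an injective coding of table, state and top symbol -/
def uprog (code : (Tab Q Γ × Q) × Option Γ → ℕ) : Prog (US Q Γ) Γ where
  nx s top := match s.2 with
    | none => (s.1, some (match s.1.1.1 s.1.2 top with
      | some m => (m, false)
      | none => (s.1.1.2 s.1.2 top, true)))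
    | some m => ((s.1.1, m.1.1), none)
  ac s _ := match s.2 with
    | none => .stay
    | some m => m.1.2
  ot s top := match s.2 with
    | some (_, true) => some (code (s.1, top))
    | _ => none

variable {b : ℕ} (M : Predictor b Q Γ) (q₀ : Q) (d : ℕ → Fin b)

/-- the table of a predictor -/
def tab : Tab Q Γ := (M.internal, fun q o => M.read q o (M.guess q o))

/-- the move in the configuration `c`, and whether a term is read -/
def mv (c : Conf Q Γ) : (Q × Act Γ) × Bool :=
  match M.internal c.2.1 c.2.2.head? with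
  | some m => (m, false)
  | none => (M.read c.2.1 c.2.2.head? (d c.1), true)

/-- the states of the simulation -/
def uq (t : ℕ) : US Q Γ :=
  if t % 2 = 0 then ((tab M, (M.conf q₀ d (t / 2)).2.1), none)
  else ((tab M, (M.conf q₀ d (t / 2)).2.1), some (mv M d (M.conf q₀ d (t / 2))))

/-- the stacks of the simulation -/
def us (t : ℕ) : List Γ := (M.conf q₀ d (t / 2)).2.2

lemma utraj (code : (Tab Q Γ × Q) × Option Γ → ℕ) :
    Traj (uprog code) (uq M q₀ d) (us M q₀ d)
      (fun t => t % 2 = 0 ∧ M.Wrong d (M.conf q₀ d (t / 2))) := by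
  refine ⟨rfl, fun t => ?_, fun t hev => ?_⟩
  · rcases Nat.even_or_odd' t with ⟨k, rfl | rfl⟩
    · have h1 : (2 * k + 1) / 2 = k := by omega
      have h2 : (2 * k) / 2 = k := by omega
      have h3 : (2 * k) % 2 = 0 := by omega
      simp only [us, uq, h1, h2, h3, if_true, uprog, Act.app]
    · have h1 : (2 * k + 1 + 1) / 2 = k + 1 := by omega
      have h2 : (2 * k + 1) / 2 = k := by omega
      have h3 : (2 * k + 1) % 2 ≠ 0 := by omega
      simp only [us, uq, h1, h2, h3, if_false, uprog, Predictor.conf_succ, Predictor.step, mv]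
      cases h : M.internal (M.conf q₀ d k).2.1 (M.conf q₀ d k).2.2.head? with
      | some m => simp
      | none => simp
  · rcases Nat.even_or_odd' t with ⟨k, rfl | rfl⟩
    · have h1 : (2 * k + 1) / 2 = k := by omega
      have h2 : (2 * k) / 2 = k := by omega
      have h3 : (2 * k) % 2 = 0 := by omega
      have h4 : (2 * k + 1) % 2 ≠ 0 := by omega
      have hw : ¬ M.Wrong d (M.conf q₀ d k) := fun h => hev ⟨h3, by rw [h2]; exact h⟩
      simp only [us, uq, h1, h2, h3, h4, if_true, if_false, uprog, mv, tab]
      cases h : M.internal (M.conf q₀ d k).2.1 (M.conf q₀ d k).2.2.head? with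
      | some m => simp
      | none =>
        have h5 : M.guess (M.conf q₀ d k).2.1 (M.conf q₀ d k).2.2.head? = d (M.conf q₀ d k).1 := by
          by_contra h6
          exact hw ⟨h, h6⟩
        simp [h5]
    · have h1 : (2 * k + 1 + 1) / 2 = k + 1 := by omega
      have h2 : (2 * k + 1) / 2 = k := by omega
      have h3 : (2 * k + 1) % 2 ≠ 0 := by omega
      have h4 : (2 * k + 1 + 1) % 2 = 0 := by omega
      simp only [us, uq, h1, h2, h3, h4, if_true, if_false, uprog, mv,
        Predictor.conf_succ, Predictor.step]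
      cases h : M.internal (M.conf q₀ d k).2.1 (M.conf q₀ d k).2.2.head? with
      | some m => simp
      | none => simp

/-- the word which is written: at every place `i` the code of the configuration in which the `i`-th
term is read -/
lemma uwritten (code : (Tab Q Γ × Q) × Option Γ → ℕ) (T : ℕ) :
    (written (uprog code) (uq M q₀ d) (us M q₀ d) (2 * T)).length = (M.conf q₀ d T).1 ∧
      ∀ i < (M.conf q₀ d T).1, ∃ k < T, (M.conf q₀ d k).1 = i ∧
        M.internal (M.conf q₀ d k).2.1 (M.conf q₀ d k).2.2.head? = none ∧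
        (written (uprog code) (uq M q₀ d) (us M q₀ d) (2 * T))[i]? =
          some (code ((tab M, (M.conf q₀ d k).2.1), (M.conf q₀ d k).2.2.head?)) := by
  induction T with
  | zero => exact ⟨rfl, fun i hi => absurd hi (Nat.not_lt_zero i)⟩
  | succ k ih =>
    obtain ⟨ih1, ih2⟩ := ih
    have h1 : (2 * k + 1) / 2 = k := by omega
    have h2 : (2 * k) / 2 = k := by omega
    have h3 : (2 * k) % 2 = 0 := by omega
    have h4 : (2 * k + 1) % 2 ≠ 0 := by omega
    have e0 : written (uprog code) (uq M q₀ d) (us M q₀ d) (2 * (k + 1)) =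
        written (uprog code) (uq M q₀ d) (us M q₀ d) (2 * k) ++
          ((uprog code).ot (uq M q₀ d (2 * k + 1)) (us M q₀ d (2 * k + 1)).head?).toList := by
      rw [show 2 * (k + 1) = 2 * k + 1 + 1 by ring, written, written]
      have : (uprog code).ot (uq M q₀ d (2 * k)) (us M q₀ d (2 * k)).head? = none := by
        simp only [uq, h3, if_true, uprog]
      rw [this]
      simp
    obtain ⟨W, hW⟩ : ∃ W, W = written (uprog code) (uq M q₀ d) (us M q₀ d) (2 * k) := ⟨_, rfl⟩
    rw [e0, ← hW]
    rw [← hW] at ih1 ih2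
    cases h : M.internal (M.conf q₀ d k).2.1 (M.conf q₀ d k).2.2.head? with
    | some m =>
      have e1 : (uprog code).ot (uq M q₀ d (2 * k + 1)) (us M q₀ d (2 * k + 1)).head? = none := by
        simp only [uq, h1, h4, if_false, uprog, mv, h]
      have e2 : (M.conf q₀ d (k + 1)).1 = (M.conf q₀ d k).1 := by
        rw [M.conf_succ, Predictor.step, h]
      rw [e1, e2]
      simp only [Option.toList_none, List.append_nil]
      refine ⟨ih1, fun i hi => ?_⟩
      obtain ⟨k', hk', r⟩ := ih2 i hi
      exact ⟨k', by omega, r⟩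
    | none =>
      have e1 : (uprog code).ot (uq M q₀ d (2 * k + 1)) (us M q₀ d (2 * k + 1)).head? =
          some (code ((tab M, (M.conf q₀ d k).2.1), (M.conf q₀ d k).2.2.head?)) := by
        simp only [uq, us, h1, h4, if_false, uprog, mv, h]
      have e2 : (M.conf q₀ d (k + 1)).1 = (M.conf q₀ d k).1 + 1 := by
        rw [M.conf_succ, Predictor.step, h]
      rw [e1, e2]
      refine ⟨by simp [ih1], fun i hi => ?_⟩
      rcases Nat.lt_succ_iff_lt_or_eq.1 hi with hi' | hi'
      · obtain ⟨k', hk', r1, r2, r3⟩ := ih2 i hi'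
        refine ⟨k', by omega, r1, r2, ?_⟩
        rw [List.getElem?_append_left (by rw [ih1]; exact hi')]
        exact r3
      · refine ⟨k, by omega, hi'.symm, h, ?_⟩
        rw [hi', List.getElem?_append_right (by rw [ih1]), ih1]
        simp

open Classical in
/-- the places of the wrong guesses -/
lemma fails_le_code (code : (Tab Q Γ × Q) × Option Γ → ℕ) (hinj : Function.Injective code)
    (P N T : ℕ) (hN : N ≤ (M.conf q₀ d T).1) :
    fails d P N ≤ dfc P (written (uprog code) (uq M q₀ d) (us M q₀ d) (2 * T)) +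
      2 * M.wrong q₀ d T := by
  classical
  obtain ⟨hlen, hget⟩ := uwritten M q₀ d code T
  obtain ⟨W, hW⟩ : ∃ W, W = written (uprog code) (uq M q₀ d) (us M q₀ d) (2 * T) := ⟨_, rfl⟩
  rw [← hW] at hlen hget ⊢
  obtain ⟨E, hE⟩ : ∃ E, E = ((range T).filter fun t => M.Wrong d (M.conf q₀ d t)).image
    fun t => (M.conf q₀ d t).1 := ⟨_, rfl⟩
  have hEc : E.card ≤ M.wrong q₀ d T := by
    rw [hE]
    refine card_image_le.trans (le_of_eq ?_)
    unfold Predictor.wrong
    congr 1
  have hgood : ∀ i < W.length, i ∉ E → ∃ q o, W[i]? = some (code ((tab M, q), o)) ∧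
      d i = M.guess q o := by
    intro i hi hiE
    rw [hlen] at hi
    obtain ⟨k, hk, r1, r2, r3⟩ := hget i hi
    refine ⟨_, _, r3, ?_⟩
    by_contra hne
    apply hiE
    rw [hE]
    refine Finset.mem_image.2 ⟨k, Finset.mem_filter.2 ⟨Finset.mem_range.2 hk, r2, ?_⟩, r1⟩
    rw [r1]
    exact fun h => hne h.symm
  have hsub : ((range N).filter fun k => k + P < N ∧ d k ≠ d (k + P)) ⊆
      ((range W.length).filter fun i => i + P < W.length ∧ W[i + P]? ≠ W[i]?) ∪
        (E ∪ E.image fun i => i - P) := by
    intro k hk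
    rw [mem_filter, mem_range] at hk
    obtain ⟨hk1, hk2, hk3⟩ := hk
    rw [mem_union]
    by_cases h1 : k ∈ E
    · right; rw [mem_union]; exact Or.inl h1
    by_cases h2 : k + P ∈ E
    · right
      rw [mem_union]
      exact Or.inr (mem_image.2 ⟨k + P, h2, by omega⟩)
    left
    rw [mem_filter, mem_range]
    refine ⟨by omega, by omega, fun heq => hk3 ?_⟩
    obtain ⟨q, o, e1, e2⟩ := hgood k (by omega) h1
    obtain ⟨q', o', e3, e4⟩ := hgood (k + P) (by omega) h2
    rw [e1, e3] at heq
    have h5 := hinj (Option.some.inj heq)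
    rw [Prod.mk.injEq, Prod.mk.injEq] at h5
    rw [e2, e4, h5.1.2, h5.2]
  refine (card_le_card hsub).trans ((card_union_le _ _).trans ?_)
  refine Nat.add_le_add (le_of_eq rfl) ((card_union_le _ _).trans ?_)
  have : (E.image fun i => i - P).card ≤ E.card := card_image_le
  omega

/-- **Pushdown predictors, uniformly.** -/
theorem predictor_fail_uniform (Q Γ : Type) [Finite Q] [Finite Γ] :
    ∃ P C : ℕ, 1 ≤ P ∧ 1 ≤ C ∧ ∀ (b : ℕ) (M : Predictor b Q Γ) (q₀ : Q) (d : ℕ → Fin b) (N T : ℕ),
      N ≤ (M.conf q₀ d T).1 → fails d P N ≤ C * (M.wrong q₀ d T + 1) := by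
  classical
  obtain ⟨n, ⟨e⟩⟩ := Finite.exists_equiv_fin ((Tab Q Γ × Q) × Option Γ)
  have : Fintype (US Q Γ) := Fintype.ofFinite _
  have : Fintype Γ := Fintype.ofFinite _
  obtain ⟨code, hcode⟩ : ∃ code : (Tab Q Γ × Q) × Option Γ → ℕ, code = fun s => (e s : ℕ) :=
    ⟨_, rfl⟩
  have hinj : Function.Injective code := by
    intro s s' h
    rw [hcode] at h
    exact e.injective (Fin.ext h)
  obtain ⟨LO, C3, hmain⟩ := (uprog code).main
  refine ⟨LO.factorial, C3 * LO.factorial + 2, Nat.one_le_iff_ne_zero.2 (Nat.factorial_ne_zero _),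
    by omega, fun b M q₀ d N T hN => ?_⟩
  have h1 := fails_le_code M q₀ d code hinj LO.factorial N T hN
  have h2 := (hmain (uq M q₀ d) (us M q₀ d) _ (utraj M q₀ d code) (2 * T)).dfc_le (dvd_fact LO)
  have h5 : (C3 * LO.factorial + 2) * (M.wrong q₀ d T + 1) =
      C3 * LO.factorial * (M.wrong q₀ d T + 1) + 2 * M.wrong q₀ d T + 2 := by ring
  rw [h5]
  have h6 : dfc LO.factorial (written (uprog code) (uq M q₀ d) (us M q₀ d) (2 * T)) ≤
      C3 * LO.factorial * (M.wrong q₀ d T + 1) := by
    refine h2.trans ?_
    rw [Nat.mul_right_comm]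
    refine Nat.mul_le_mul_left _ (Nat.succ_le_succ ?_)
    convert M.card_ev q₀ d T
  omega

end Pool.Agent.Helper20.PD
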