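import Mathlib
import Pool.Agent.Helper20.PD.Uni
import Pool.Agent.R473.FP.FS
import Pool.Agent.R473.EC.Pi

/-!
# Failures of periodicity of the digits of a number with an irrationality measure

and the errors of pushdown predictors, the writes of lossless compressors and the accesses of
machines with several stacks.
-/

set_option autoImplicit false

namespace Pool.Agent.Helper20.PD

open Finset Filter Pool.Agent.W979.HS Pool.Agent.R473.PP
open Pool.Agent.H831R3.LC (dig)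

/-- `d 0, d 1, …` are the digits after the point of `x` in base `b` -/
def IsDigits (b : ℕ) (x : ℝ) (d : ℕ → Fin b) : Prop :=
  ∀ i, ((d i : ℕ) : ℤ) = ⌊x * (b : ℝ) ^ (i + 1)⌋ % (b : ℤ)

/-- an irrationality measure (for all denominators) -/
def IrrMeas (x μ c : ℝ) : Prop :=
  ∀ q : ℕ, 1 ≤ q → ∀ p : ℤ, c ≤ (q : ℝ) ^ (μ - 1) * (1 + Real.log q) ^ (0 : ℝ) * |q * x - p|

/-- **The failures of `d k = d (k + P)`.** -/
theorem fails_lower (x μ c0 : ℝ) (hμ : 1 < μ) (hc0 : 0 < c0) (hM : IrrMeas x μ c0) :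
    ∃ C : ℝ, 1 ≤ C ∧ ∀ b : ℕ, 2 ≤ b → ∀ d : ℕ → Fin b, IsDigits b x d → ∀ P N : ℕ, 1 ≤ P →
      (N : ℝ) ≤ (∑ i ∈ range (fails d P N + 1), μ ^ (i + 1)) * (P + C) := by
  classical
  obtain ⟨β, hβ⟩ : ∃ β : ℝ, β = 0 + 3 / 2 * |Real.log c0| := ⟨_, rfl⟩
  have hβ0 : 0 ≤ β := by rw [hβ]; positivity
  refine ⟨β + 1 + β, by linarith, ?_⟩
  intro b hb d hd P N hP
  obtain ⟨E, hE⟩ : ∃ E, E = ((range N).filter fun k => k + P < N ∧ d k ≠ d (k + P)).image
    fun k => k + P := ⟨_, rfl⟩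
  have hEc : E.card ≤ fails d P N := by
    rw [hE]
    exact card_image_le
  have hmain := Pool.Agent.W47.JL.rec_final μ 0 β (P : ℝ) 0 hμ le_rfl hβ0 (Nat.cast_nonneg P)
    (by simp) le_rfl E N (fails d P N) hEc (fun u v huv hvN hE' => by
      have hper : ∀ i, 0 ≤ i → u + i + P < v → dig x b (u + i + P + 1) = dig x b (u + i + 1) := by
        intro i _ hi
        have h1 : d (u + i) = d (u + i + P) := by
          by_contra hne
          have hmem : u + i + P ∈ E := by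
            rw [hE]
            exact mem_image.2 ⟨u + i, mem_filter.2 ⟨mem_range.2 (by omega), by omega, hne⟩, rfl⟩
          rcases hE' _ hmem with h | h <;> omega
        have h2 := hd (u + i)
        have h3 := hd (u + i + P)
        unfold dig
        rw [← h2, ← h3, h1]
      have h := Pool.Agent.R473.FP.gap_fs x μ c0 0 hμ hc0 le_rfl hM b hb P u v 0 P hP (by omega) hper
      rw [← hβ] at h
      simpa using h)
  refine hmain.trans (le_of_eq ?_)
  unfold Pool.Agent.W47.JL.M2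
  ring

lemma sum_le_pow (μ : ℝ) (hμ : 1 < μ) (k : ℕ) :
    (∑ i ∈ range (k + 1), μ ^ (i + 1)) ≤ (2 * μ) ^ (k + 1) := by
  induction k with
  | zero =>
    simp
    linarith
  | succ k ih =>
    rw [Finset.sum_range_succ, pow_succ (2 * μ) (k + 1)]
    have h1 : μ ^ (k + 1 + 1) ≤ (2 * μ) ^ (k + 1) * μ := by
      rw [pow_succ]
      exact mul_le_mul_of_nonneg_right (pow_le_pow_left₀ (by linarith) (by linarith) _)
        (by linarith)
    have h2 : 0 < (2 * μ) ^ (k + 1) := by positivity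
    nlinarith

/-- the same with `A ^ (fails + 1)` -/
theorem fails_lower_pow (x μ c0 : ℝ) (hμ : 1 < μ) (hc0 : 0 < c0) (hM : IrrMeas x μ c0) :
    ∃ A : ℝ, 1 ≤ A ∧ ∀ b : ℕ, 2 ≤ b → ∀ d : ℕ → Fin b, IsDigits b x d → ∀ P N : ℕ, 1 ≤ P →
      (N : ℝ) ≤ A ^ (fails d P N + 1) * P := by
  obtain ⟨C, hC, h⟩ := fails_lower x μ c0 hμ hc0 hM
  refine ⟨2 * μ * (1 + C), by nlinarith, fun b hb d hd P N hP => ?_⟩
  have hPR : (1 : ℝ) ≤ P := by exact_mod_cast hP
  have h1 : ((P : ℝ) + C) ≤ (1 + C) * P := by nlinarith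
  have h2 : (1 + C) ≤ (1 + C) ^ (fails d P N + 1) := le_self_pow₀ (by linarith) (by omega)
  have h3 : ((P : ℝ) + C) ≤ (1 + C) ^ (fails d P N + 1) * P :=
    h1.trans (mul_le_mul_of_nonneg_right h2 (by linarith))
  calc (N : ℝ) ≤ _ := h b hb d hd P N hP
    _ ≤ (2 * μ) ^ (fails d P N + 1) * ((1 + C) ^ (fails d P N + 1) * P) :=
        mul_le_mul (sum_le_pow μ hμ _) h3 (by linarith) (by positivity)
    _ = _ := by rw [mul_pow (2 * μ) (1 + C)]; ring

/-- from failures to errors -/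
lemma pow_combine {A : ℝ} (hA : 1 ≤ A) {P C F E : ℕ} (hP : 1 ≤ P) {N : ℕ}
    (hF : F ≤ C * (E + 1)) (h : (N : ℝ) ≤ A ^ (F + 1) * P) :
    (N : ℝ) ≤ (A ^ (C + 1) * P) ^ (E + 1) := by
  have hPR : (1 : ℝ) ≤ P := by exact_mod_cast hP
  calc (N : ℝ) ≤ A ^ (F + 1) * P := h
    _ ≤ A ^ ((C + 1) * (E + 1)) * (P : ℝ) ^ (E + 1) := by
        refine mul_le_mul (pow_le_pow_right₀ hA ?_) (le_self_pow₀ hPR (by omega)) (by linarith)
          (by positivity)
        nlinarith
    _ = _ := by rw [pow_mul, mul_pow]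

/-- the machine writes `s` symbols and then the terms `d 0, d 1, …` -/
def Outputs {b : ℕ} (M : StackMachine) (s : ℕ) (d : ℕ → Fin b) : Prop :=
  ∀ T i e, (M.output T)[s + i]? = some e → e = (d i : ℕ)

open Classical in
/-- **Machines with several stacks**: few accesses outside one stack give few failures. -/
theorem machine_fail (M : StackMachine) (k₀ : M.ι) :
    ∃ P C : ℕ, 1 ≤ P ∧ ∀ (b : ℕ) (d : ℕ → Fin b) (s : ℕ), Outputs M s d → ∀ N T : ℕ,
      s + N ≤ (M.output T).length →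
        fails d P N ≤ C * (((range T).filter (M.PopOutside k₀)).card + 1) := by
  obtain ⟨LO, C3, hmain⟩ := (M.prog k₀).main
  refine ⟨LO.factorial, C3 * LO.factorial, Nat.one_le_iff_ne_zero.2 (Nat.factorial_ne_zero _),
    fun b d s hs N T hN => ?_⟩
  have h2 := (hmain (M.st k₀) (fun t => (M.conf t).2 k₀) _ (M.traj k₀) T).dfc_le (dvd_fact LO)
  rw [M.written_eq k₀ T] at h2
  have h4 : fails d LO.factorial N ≤ dfc LO.factorial (M.output T) := by
    unfold fails dfc
    apply Finset.card_le_card_of_injOn (fun k => s + k)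
    · intro k hk
      rw [Finset.mem_coe, Finset.mem_filter, Finset.mem_range] at hk ⊢
      refine ⟨by show s + k < _; omega, by show s + k + LO.factorial < _; omega, ?_⟩
      show (M.output T)[s + k + LO.factorial]? ≠ (M.output T)[s + k]?
      intro heq
      have e1 : (M.output T)[s + k]? = some (M.output T)[s + k] :=
        List.getElem?_eq_getElem (by omega)
      have d1 := hs T k _ e1
      rw [← heq] at e1
      have d2 := hs T (k + LO.factorial) _ (by rw [← add_assoc]; exact e1)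
      exact hk.2.2 (Fin.ext (d1.symm.trans d2))
    · intro k _ k' _ h
      have : s + k = s + k' := h
      omega
  refine h4.trans (h2.trans ?_)
  rw [Nat.mul_right_comm]

open Classical in
/-- **Prediction, compression, memory accesses.** -/
theorem all_lower (x μ c0 : ℝ) (hμ : 1 < μ) (hc0 : 0 < c0) (hM : IrrMeas x μ c0) :
    (∀ (Q Γ : Type) [Finite Q] [Finite Γ], ∃ A : ℝ, ∀ b : ℕ, 2 ≤ b → ∀ d : ℕ → Fin b,
      IsDigits b x d → ∀ (M : Predictor b Q Γ) (q₀ : Q) (N T : ℕ), N ≤ (M.conf q₀ d T).1 →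
        (N : ℝ) ≤ A ^ (M.wrong q₀ d T + 1)) ∧
    (∀ K : ℕ, ∃ A : ℝ, ∀ b : ℕ, 2 ≤ b → ∀ d : ℕ → Fin b, IsDigits b x d →
      ∀ (β : Type) [DecidableEq β] (δ : Fin K → Fin b → Fin K) (o : Fin K → Fin b → List β)
        (q₀ : Fin K), Lossless δ o q₀ → ∀ N : ℕ, (N : ℝ) ≤ A ^ (writes δ o q₀ d N + 1)) ∧
    (∀ (M : StackMachine) (k₀ : M.ι), ∃ A : ℝ, ∀ b : ℕ, 2 ≤ b → ∀ d : ℕ → Fin b,
      IsDigits b x d → ∀ s : ℕ, Outputs M s d → ∀ N T : ℕ, s + N ≤ (M.output T).length →
        (N : ℝ) ≤ A ^ (((range T).filter (M.PopOutside k₀)).card + 1)) := by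
  obtain ⟨A, hA, h⟩ := fails_lower_pow x μ c0 hμ hc0 hM
  refine ⟨fun Q Γ _ _ => ?_, fun K => ?_, fun M k₀ => ?_⟩
  · obtain ⟨P, C, hP, _, hf⟩ := predictor_fail_uniform Q Γ
    exact ⟨A ^ (C + 1) * P, fun b hb d hd M q₀ N T hN =>
      pow_combine hA hP (hf b M q₀ d N T hN) (h b hb d hd P N hP)⟩
  · have hP : 1 ≤ K.factorial := Nat.one_le_iff_ne_zero.2 (Nat.factorial_ne_zero _)
    exact ⟨A ^ ((K.factorial + 1) * (K + 1) + 1) * (K.factorial : ℕ),
      fun b hb d hd β _ δ o q₀ hl N =>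
        pow_combine hA hP (comp_fail δ o q₀ hl d N) (h b hb d hd _ N hP)⟩
  · obtain ⟨P, C, hP, hf⟩ := machine_fail M k₀
    exact ⟨A ^ (C + 1) * P, fun b hb d hd s hs N T hN =>
      pow_combine hA hP (hf b d s hs N T hN) (h b hb d hd P N hP)⟩

/-- an irrationality measure of the irrational numbers which are algebraic over `ℚ(π)` -/
theorem meas_over_pi (x : ℝ)
    (halg : IsAlgebraic (IntermediateField.adjoin ℚ ({Real.pi} : Set ℝ)) x) (hirr : Irrational x) :
    ∃ μ c : ℝ, 1 < μ ∧ 0 < c ∧ IrrMeas x μ c := by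
  have hli : LinearIndependent ℚ ![(1 : ℝ), x] := by
    rw [LinearIndependent.pair_iff]
    intro s t hst
    by_cases ht : t = 0
    · subst ht
      simp at hst
      exact ⟨hst, rfl⟩
    · exfalso
      apply hirr
      refine ⟨-(s / t), ?_⟩
      have ht' : (t : ℝ) ≠ 0 := by exact_mod_cast ht
      have h1 : (s : ℝ) + (t : ℝ) * x = 0 := by
        simpa [Rat.smul_def] using hst
      push_cast
      field_simp
      linarith
  obtain ⟨w, c, hw, hc, hm⟩ := Pool.Agent.R473.EC.meas_alg Real.pi Pool.Agent.R473.EC.measR_pi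
    (m := 1) ![(1 : ℝ), x] (fun j => by
      fin_cases j
      · exact isAlgebraic_one
      · exact halg) hli
  obtain ⟨X, hX⟩ : ∃ X : ℝ, X = |x| + 1 := ⟨_, rfl⟩
  have hX1 : 1 ≤ X := by rw [hX]; linarith [abs_nonneg x]
  have hXw : 0 < X ^ w := by positivity
  refine ⟨w + 2, min (c / X ^ w) 1, by linarith, lt_min (by positivity) one_pos, ?_⟩
  intro q hq p
  rw [Real.rpow_zero, mul_one]
  have hqR : (1 : ℝ) ≤ q := by exact_mod_cast hq
  have hqw : (1 : ℝ) ≤ (q : ℝ) ^ (w + 2 - 1) := Real.one_le_rpow hqR (by linarith)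
  rcases le_or_gt |(p : ℝ)| (q * X) with hp | hp
  · refine (min_le_left _ _).trans ?_
    rw [div_le_iff₀ hXw]
    have h1 := hm ![-p, (q : ℤ)] (by
      intro h0
      have h2 := congrFun h0 1
      simp at h2
      omega) (q * X) (by nlinarith) (fun j => by
        fin_cases j
        · simpa using hp
        · simp
          nlinarith)
    have h2 : ∑ j, ((![-p, (q : ℤ)] j : ℤ) : ℝ) * ![(1 : ℝ), x] j = q * x - p := by
      rw [Fin.sum_univ_two]
      simp
      ring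
    rw [h2, Real.mul_rpow (by linarith) (by linarith)] at h1
    have h3 : (q : ℝ) ^ w ≤ (q : ℝ) ^ (w + 2 - 1) :=
      Real.rpow_le_rpow_of_exponent_le hqR (by linarith)
    have h4 : 0 ≤ X ^ w * |(q : ℝ) * x - p| := by positivity
    calc c ≤ (q : ℝ) ^ w * X ^ w * |(q : ℝ) * x - p| := h1
      _ = (q : ℝ) ^ w * (X ^ w * |(q : ℝ) * x - p|) := by ring
      _ ≤ (q : ℝ) ^ (w + 2 - 1) * (X ^ w * |(q : ℝ) * x - p|) :=
          mul_le_mul_of_nonneg_right h3 h4
      _ = _ := by ring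
  · refine (min_le_right _ _).trans ?_
    have h1 : 1 ≤ |(q : ℝ) * x - p| := by
      have h2 : |(p : ℝ)| - |(q : ℝ) * x| ≤ |(q : ℝ) * x - p| := by
        rw [abs_sub_comm]
        exact abs_sub_abs_le_abs_sub _ _
      rw [abs_mul, abs_of_nonneg (by linarith : (0 : ℝ) ≤ q)] at h2
      rw [hX] at hp
      nlinarith
    nlinarith

end Pool.Agent.Helper20.PD
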