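import Mathlib
import Pool.Agent.Helper20.PD.Uni
import Pool.Agent.Y949.LW.Pi

/-!
# Prediction and compression in the windows of the digits of the numbers `a q ^ n x`
-/

set_option autoImplicit false

namespace Pool.Agent.Helper20.PD

open Finset Filter Pool.Agent.W979.HS Pool.Agent.R473.PP
open Pool.Agent.Y949.LW (Occ)

/-- `d 0, d 1, …` are the digits of `y` in base `b` from the `(u + 1)`-st place after the point on -/
def DigitsFrom (b : ℕ) (y : ℝ) (u : ℕ) (d : ℕ → Fin b) : Prop :=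
  ∀ i, ((d i : ℕ) : ℤ) = ⌊y * (b : ℝ) ^ (u + i + 1)⌋ % (b : ℤ)

/-- the word `0…01` gives a failure of `d k = d (k + P)` -/
lemma occ_fails {b : ℕ} (hb : 2 ≤ b) {P : ℕ} (hP : 1 ≤ P) (y : ℝ) (u : ℕ) (E : ℝ) (N : ℕ)
    (hN : E ≤ u + N) (d : ℕ → Fin b) (hd : DigitsFrom b y u d) :
    (Occ b (P + 1) y u E 1).ncard ≤ fails d P N := by
  have hbR : (0 : ℝ) < b := by exact_mod_cast (by omega : 0 < b)
  have hbZ : (0 : ℤ) < b := by exact_mod_cast (by omega : 0 < b)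
  unfold fails
  rw [← Set.ncard_coe_finset]
  refine Set.ncard_le_ncard_of_injOn (fun i => i - u) ?_ ?_ (Finset.finite_toSet _)
  · rintro i ⟨h1, h2, h3⟩
    rw [Finset.mem_coe, Finset.mem_filter, Finset.mem_range]
    have h4 : (i : ℝ) + ((P + 1 : ℕ) : ℝ) ≤ u + N := h2.trans hN
    have h5 : i + (P + 1) ≤ u + N := by exact_mod_cast h4
    obtain ⟨j, rfl⟩ : ∃ j, i = u + j := ⟨i - u, by omega⟩
    rw [show u + j - u = j by omega]
    refine ⟨by omega, by omega, ?_⟩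
    obtain ⟨X, hX⟩ : ∃ X : ℝ, X = (b : ℝ) ^ (u + j + (P + 1)) * y := ⟨_, rfl⟩
    rw [← hX] at h3
    have hlast : ((d (j + P) : ℕ) : ℤ) = 1 := by
      rw [hd (j + P)]
      have e : y * (b : ℝ) ^ (u + (j + P) + 1) = X := by
        rw [hX, mul_comm]
        congr 2
        ring
      rw [e]
      have h6 : (b : ℤ) ∣ (b : ℤ) ^ (P + 1) := dvd_pow_self _ (by omega)
      rw [← Int.emod_emod_of_dvd _ h6, h3]
      norm_num
      exact Int.emod_eq_of_lt (by norm_num) (by exact_mod_cast (by omega : 1 < b))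
    have hfirst : ((d j : ℕ) : ℤ) = 0 := by
      rw [hd j]
      have e : y * (b : ℝ) ^ (u + j + 1) = X / ((b ^ P : ℕ) : ℝ) := by
        rw [hX]
        push_cast
        rw [show u + j + (P + 1) = (u + j + 1) + P by ring, pow_add _ (u + j + 1) P]
        field_simp
      rw [e, Int.floor_div_natCast]
      obtain ⟨m, hm⟩ : ∃ m, m = ⌊X⌋ / (b : ℤ) ^ (P + 1) := ⟨_, rfl⟩
      have h7 : ⌊X⌋ = (b : ℤ) ^ (P + 1) * m + 1 := by
        rw [hm]
        have := Int.mul_ediv_add_emod ⌊X⌋ ((b : ℤ) ^ (P + 1))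
        rw [h3] at this
        push_cast at this
        exact this.symm
      have h8 : ⌊X⌋ / ((b ^ P : ℕ) : ℤ) = b * m := by
        rw [h7]
        push_cast
        have hbP : (1 : ℤ) < (b : ℤ) ^ P := one_lt_pow₀ (by exact_mod_cast (by omega : 1 < b)) (by omega)
        have e2 : (b : ℤ) ^ (P + 1) * m + 1 = 1 + (b : ℤ) ^ P * (b * m) := by ring
        rw [e2, Int.add_mul_ediv_left _ _ (by positivity), Int.ediv_eq_zero_of_lt (by norm_num) hbP]
        ring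
      rw [h8]
      exact Int.mul_emod_right _ _
    intro heq
    rw [← heq, hfirst] at hlast
    norm_num at hlast
  · rintro i ⟨h1, -, -⟩ i' ⟨h1', -, -⟩ h
    have : i - u = i' - u := h
    omega

lemma filt_add (T : ℕ) (p p1 p2 : ℕ → Prop) [DecidablePred p] [DecidablePred p1]
    [DecidablePred p2] (h : ∀ t, ¬ p1 t → ¬ p2 t → ¬ p t) {x y : ℝ}
    (h1 : (((range T).filter p1).card : ℝ) ≤ x) (h2 : (((range T).filter p2).card : ℝ) ≤ y) :
    (((range T).filter p).card : ℝ) ≤ x + y := by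
  refine le_trans ?_ (add_le_add h1 h2)
  rw [← Nat.cast_add]
  refine Nat.cast_le.2 (le_trans (Finset.card_le_card ?_) (Finset.card_union_le _ _))
  intro t ht
  rw [Finset.mem_filter] at ht
  rw [Finset.mem_union, Finset.mem_filter, Finset.mem_filter]
  by_contra hcon
  rw [not_or, not_and, not_and] at hcon
  exact h t (hcon.1 ht.1) (hcon.2 ht.1) ht.2

open Classical in
/-- **Windows.** -/
theorem windows_all (b q : ℕ) (hb : 2 ≤ b) (hq : 2 ≤ q)
    (hbq : Nat.Coprime b q ∨ ∃ v : ℕ, 2 ≤ v ∧ Nat.Coprime q v ∧ b = q * v)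
    {x κ c0 : ℝ} (hκ : 0 < κ) (hc0 : 0 < c0)
    (hx : ∀ Q : ℕ, 1 ≤ Q → ∀ P : ℤ, c0 ≤ (Q : ℝ) ^ κ * |Q * x - P|)
    (Q Γ : Type) [Finite Q] [Finite Γ] (K R : ℕ)
    (C ε δ : ℝ) (hC : κ < C) (hε : 0 < ε) (hδ : 0 < δ) :
    ∃ M₀ : ℕ, ∀ M J a : ℕ, M₀ ≤ M → 1 ≤ a →
      (({n : ℕ | J ≤ n ∧ n < J + M ∧ ¬ ∀ u : ℕ, u ≤ R * (J + M) → ∀ d : ℕ → Fin b,
        DigitsFrom b (a * (q : ℝ) ^ n * x) u d → ∀ N : ℕ,
          C * (u + Real.log (a * (q : ℝ) ^ n) / Real.log b) ≤ N →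
          (∀ (A : Predictor b Q Γ) (q₀ : Q) (T : ℕ), N ≤ (A.conf q₀ d T).1 →
            (M : ℝ) ^ (1 - ε) ≤ A.wrong q₀ d T) ∧
          (∀ (β : Type) [DecidableEq β] (δ' : Fin K → Fin b → Fin K)
            (o : Fin K → Fin b → List β) (q₀ : Fin K), Lossless δ' o q₀ →
            (M : ℝ) ^ (1 - ε) ≤ writes δ' o q₀ d N)}.ncard : ℕ) : ℝ) ≤ δ * M := by
  obtain ⟨P, C1, hP, _, hpred⟩ := predictor_fail_uniform Q Γ
  obtain ⟨P', hP'def⟩ : ∃ P', P' = K.factorial := ⟨_, rfl⟩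
  have hP' : 1 ≤ P' := by rw [hP'def]; exact Nat.one_le_iff_ne_zero.2 (Nat.factorial_ne_zero _)
  obtain ⟨C2, hC2def⟩ : ∃ C2, C2 = (P' + 1) * (K + 1) := ⟨_, rfl⟩
  obtain ⟨r, D, k0, -, hrb, hD, hdn⟩ := Pool.Agent.Y949.LW.exists_core hb hq hbq
  obtain ⟨ε', hε'⟩ : ∃ ε' : ℝ, ε' = min ε 1 := ⟨_, rfl⟩
  have hε'0 : 0 < ε' := by rw [hε']; exact lt_min hε one_pos
  have hε'1 : ε' ≤ 1 := by rw [hε']; exact min_le_right _ _
  have hε'2 : ε' ≤ ε := by rw [hε']; exact min_le_left _ _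
  obtain ⟨M1, hM1⟩ := Pool.Agent.Y949.LW.words hb hq hrb hD hdn hκ hc0 hx (P + 1) R
    (C := C) (ε := ε' / 2) (δ := δ / 2) hC (by positivity) (by positivity)
  obtain ⟨M2, hM2⟩ := Pool.Agent.Y949.LW.words hb hq hrb hD hdn hκ hc0 hx (P' + 1) R
    (C := C) (ε := ε' / 2) (δ := δ / 2) hC (by positivity) (by positivity)
  have ht : Tendsto (fun T : ℕ => (T : ℝ) ^ (ε' / 2)) atTop atTop :=
    (tendsto_rpow_atTop (by positivity)).comp tendsto_natCast_atTop_atTop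
  obtain ⟨M3, hM3⟩ := (tendsto_atTop.1 ht (2 * (C1 : ℝ) + 2 * C2)).exists_forall_of_atTop
  refine ⟨max (max M1 M2) (max M3 1), fun M J a hM ha => ?_⟩
  have e1 : M1 ≤ M := (le_max_left _ _).trans ((le_max_left _ _).trans hM)
  have e2 : M2 ≤ M := (le_max_right _ _).trans ((le_max_left _ _).trans hM)
  have e3 : M3 ≤ M := (le_max_left _ _).trans ((le_max_right _ _).trans hM)
  have e4 : 1 ≤ M := (le_max_right _ _).trans ((le_max_right _ _).trans hM)
  have hMR : (1 : ℝ) ≤ M := by exact_mod_cast e4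
  have h3 := hM3 M e3
  have hC10 : (0 : ℝ) ≤ C1 := Nat.cast_nonneg _
  have hC20 : (0 : ℝ) ≤ C2 := Nat.cast_nonneg _
  have hpow : (M : ℝ) ^ (1 - ε) ≤ (M : ℝ) ^ (1 - ε') :=
    Real.rpow_le_rpow_of_exponent_le hMR (by linarith)
  have hb1 : 1 < b ^ (P + 1) := Nat.one_lt_pow (by omega) (by omega)
  have hb2 : 1 < b ^ (P' + 1) := Nat.one_lt_pow (by omega) (by omega)
  obtain ⟨bad, hbad⟩ : ∃ bad : ℕ → Prop, bad = fun n => ¬ ∀ u : ℕ, u ≤ R * (J + M) →
      ∀ d : ℕ → Fin b, DigitsFrom b (a * (q : ℝ) ^ n * x) u d → ∀ N : ℕ,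
          C * (u + Real.log (a * (q : ℝ) ^ n) / Real.log b) ≤ N →
          (∀ (A : Predictor b Q Γ) (q₀ : Q) (T : ℕ), N ≤ (A.conf q₀ d T).1 →
            (M : ℝ) ^ (1 - ε) ≤ A.wrong q₀ d T) ∧
          (∀ (β : Type) [DecidableEq β] (δ' : Fin K → Fin b → Fin K)
            (o : Fin K → Fin b → List β) (q₀ : Fin K), Lossless δ' o q₀ →
            (M : ℝ) ^ (1 - ε) ≤ writes δ' o q₀ d N) := ⟨_, rfl⟩
  have hset : {n : ℕ | J ≤ n ∧ n < J + M ∧ ¬ ∀ u : ℕ, u ≤ R * (J + M) → ∀ d : ℕ → Fin b,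
        DigitsFrom b (a * (q : ℝ) ^ n * x) u d → ∀ N : ℕ,
          C * (u + Real.log (a * (q : ℝ) ^ n) / Real.log b) ≤ N →
          (∀ (A : Predictor b Q Γ) (q₀ : Q) (T : ℕ), N ≤ (A.conf q₀ d T).1 →
            (M : ℝ) ^ (1 - ε) ≤ A.wrong q₀ d T) ∧
          (∀ (β : Type) [DecidableEq β] (δ' : Fin K → Fin b → Fin K)
            (o : Fin K → Fin b → List β) (q₀ : Fin K), Lossless δ' o q₀ →
            (M : ℝ) ^ (1 - ε) ≤ writes δ' o q₀ d N)} ⊆
      (fun t => J + t) '' (((range M).filter fun t => bad (J + t) : Finset ℕ) : Set ℕ) := by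
    rintro n ⟨h1, h2, h3⟩
    refine ⟨n - J, ?_, by show J + (n - J) = n; omega⟩
    rw [Finset.mem_coe, Finset.mem_filter, Finset.mem_range]
    refine ⟨by omega, ?_⟩
    rw [show J + (n - J) = n by omega, hbad]
    exact h3
  have hcard : ((((range M).filter fun t => bad (J + t)).card : ℕ) : ℝ) ≤ δ / 2 * M + δ / 2 * M := by
    refine filt_add M _ _ _ ?_ (hM1 M J a e1 ha) (hM2 M J a e2 ha)
    intro t hn1 hn2
    rw [not_not] at hn1 hn2
    rw [hbad, not_not]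
    intro u hu d hd N hN
    have haR : (0 : ℝ) < a := by exact_mod_cast ha
    have hqR : (0 : ℝ) < (q : ℝ) ^ (J + t) := by
      have : (0 : ℝ) < q := by exact_mod_cast (by omega : 0 < q)
      positivity
    have elog : Real.log (a * (q : ℝ) ^ (J + t)) =
        Real.log a + ((J + t : ℕ) : ℝ) * Real.log q := by
      rw [Real.log_mul haR.ne' hqR.ne', Real.log_pow]
    rw [elog] at hN
    constructor
    · intro A q₀ T hT
      have h4 := hn1 u hu 1 hb1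
      have h5 : ((Occ b (P + 1) (a * (q : ℝ) ^ (J + t) * x) u
          (u + C * (u + (Real.log a + ((J + t : ℕ) : ℝ) * Real.log q) / Real.log b)) 1).ncard : ℝ) ≤
          fails d P N :=
        Nat.cast_le.2 (occ_fails hb hP _ u _ N (by linarith) d hd)
      exact hpow.trans (real_bound (C := C1) hMR hε'1 (by linarith) (h4.trans h5)
        (hpred b A q₀ d N T hT))
    · intro β _ δ' o q₀ hlos
      have h4 := hn2 u hu 1 hb2
      have h5 : ((Occ b (P' + 1) (a * (q : ℝ) ^ (J + t) * x) u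
          (u + C * (u + (Real.log a + ((J + t : ℕ) : ℝ) * Real.log q) / Real.log b)) 1).ncard : ℝ) ≤
          fails d P' N :=
        Nat.cast_le.2 (occ_fails hb hP' _ u _ N (by linarith) d hd)
      have h6 := comp_fail δ' o q₀ hlos d N
      rw [← hP'def, ← hC2def] at h6
      exact hpow.trans (real_bound (C := C2) hMR hε'1 (by linarith) (h4.trans h5) h6)
  have hfin := Set.ncard_le_ncard hset ((Finset.finite_toSet _).image _)
  have himg := Set.ncard_image_le (f := fun t => J + t)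
    (Finset.finite_toSet ((range M).filter fun t => bad (J + t)))
  rw [Set.ncard_coe_finset] at himg
  have hle : ((({n : ℕ | J ≤ n ∧ n < J + M ∧ ¬ ∀ u : ℕ, u ≤ R * (J + M) → ∀ d : ℕ → Fin b,
        DigitsFrom b (a * (q : ℝ) ^ n * x) u d → ∀ N : ℕ,
          C * (u + Real.log (a * (q : ℝ) ^ n) / Real.log b) ≤ N →
          (∀ (A : Predictor b Q Γ) (q₀ : Q) (T : ℕ), N ≤ (A.conf q₀ d T).1 →
            (M : ℝ) ^ (1 - ε) ≤ A.wrong q₀ d T) ∧
          (∀ (β : Type) [DecidableEq β] (δ' : Fin K → Fin b → Fin K)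
            (o : Fin K → Fin b → List β) (q₀ : Fin K), Lossless δ' o q₀ →
            (M : ℝ) ^ (1 - ε) ≤ writes δ' o q₀ d N)}.ncard : ℕ) : ℝ)) ≤
      ((((range M).filter fun t => bad (J + t)).card : ℕ) : ℝ) := Nat.cast_le.2 (hfin.trans himg)
  linarith

end Pool.Agent.Helper20.PD
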